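import Pool.Agent.Lib.MP_7dc3d9_gt.ThA.FinB

set_option autoImplicit false

/-!
# MP_7dc3d9_gt: curvature preserving families in spaces of countable dimension

Definitions (`Pool.Agent.Lib.MP_7dc3d9_gt.ThA.Defs`): `IsSupp f`: `f` is positively 1-homogeneous
on `ℝ³` and `C²` outside the origin; `curvatureFunction f u`: sum of the principal `2 × 2` minors
of the Hessian of `f` at `u`; `hedgehog f`: image of the unit sphere under the gradient of `f`.
-/

namespace Pool.Agent.Results.MP_7dc3d9_gt.CountableDimension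

open Pool.Agent.HH Set

/-- (1) In a finite dimensional space of `C²` support functions the functions with a prescribed
curvature function form finitely many classes modulo linear functions. (2) In a space of countable
dimension, countably many. (3) Consequently a family `H t`, `t ∈ [0,1]`, of functions in the span
of a sequence of `C²` support functions, pointwise continuous in `t`, with
`R_{H t} = R_{H 0}` on the sphere, is constant up to translations; in particular all the hedgehogs
are congruent. -/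
theorem result :
    (∀ (N : ℕ) (b : Fin N → EuclideanSpace ℝ (Fin 3) → ℝ) (R : EuclideanSpace ℝ (Fin 3) → ℝ),
      (∀ i, IsSupp (b i)) →
      ∃ S : Set (EuclideanSpace ℝ (Fin 3) → ℝ), S.Finite ∧
        ∀ h ∈ Submodule.span ℝ (Set.range b),
          (∀ u ∈ Metric.sphere (0 : EuclideanSpace ℝ (Fin 3)) 1, curvatureFunction h u = R u) →
          ∃ s ∈ S, ∃ a : EuclideanSpace ℝ (Fin 3), ∀ x, h x = s x + inner ℝ a x) ∧
    (∀ (b : ℕ → EuclideanSpace ℝ (Fin 3) → ℝ) (R : EuclideanSpace ℝ (Fin 3) → ℝ),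
      (∀ i, IsSupp (b i)) →
      ∃ S : Set (EuclideanSpace ℝ (Fin 3) → ℝ), S.Countable ∧
        ∀ h ∈ Submodule.span ℝ (Set.range b),
          (∀ u ∈ Metric.sphere (0 : EuclideanSpace ℝ (Fin 3)) 1, curvatureFunction h u = R u) →
          ∃ s ∈ S, ∃ a : EuclideanSpace ℝ (Fin 3), ∀ x, h x = s x + inner ℝ a x) ∧
    (∀ (b : ℕ → EuclideanSpace ℝ (Fin 3) → ℝ) (H : ℝ → EuclideanSpace ℝ (Fin 3) → ℝ),
      (∀ n, IsSupp (b n)) →
      (∀ t ∈ Icc (0 : ℝ) 1, H t ∈ Submodule.span ℝ (Set.range b)) →
      (∀ x, ContinuousOn (fun t => H t x) (Icc 0 1)) →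
      (∀ t ∈ Icc (0 : ℝ) 1, ∀ u ∈ Metric.sphere (0 : EuclideanSpace ℝ (Fin 3)) 1,
        curvatureFunction (H t) u = curvatureFunction (H 0) u) →
      ∀ t ∈ Icc (0 : ℝ) 1,
        (∃ a : EuclideanSpace ℝ (Fin 3), ∀ x, H t x = H 0 x + inner ℝ a x) ∧
        ∃ Φ : EuclideanSpace ℝ (Fin 3) ≃ᵢ EuclideanSpace ℝ (Fin 3),
          Φ '' hedgehog (H 0) = hedgehog (H t)) :=
  ⟨finite_classes, countable_classes, families⟩

end Pool.Agent.Results.MP_7dc3d9_gt.CountableDimension
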