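import Pool.Agent.Lib.MP_7dc3d9_gt.ThA.AllA

set_option autoImplicit false

/-!
# MP_7dc3d9_gt: two `C²` hedgehogs with equal curvature functions and zero mixed curvature function

`IsSupp f` : `f` is positively 1-homogeneous on `ℝ³` and `C²` outside the origin;
`curvatureFunction f u` : sum of the principal `2 × 2` minors of the Hessian of `f` at `u`.
-/

namespace Pool.Agent.Results.MP_7dc3d9_gt.NullHedgehogs

open Pool.Agent.HH

/-- (1) If `R_f = R_g` and `R_{f+g} = R_f + R_g` (i.e. the mixed curvature function vanishes) on the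
sphere then `f` and `g` are linear: both hedgehogs are points.
(2) If the curvature functions of `f`, `g` and the mixed one are constant multiples
`α ρ, β ρ, γ ρ` of one function, then some nontrivial linear combination of `f` and `g` is linear. -/
theorem result :
    (∀ f g : EuclideanSpace ℝ (Fin 3) → ℝ, IsSupp f → IsSupp g →
      (∀ u ∈ Metric.sphere (0 : EuclideanSpace ℝ (Fin 3)) 1,
        curvatureFunction f u = curvatureFunction g u) →
      (∀ u ∈ Metric.sphere (0 : EuclideanSpace ℝ (Fin 3)) 1,
        curvatureFunction (fun x => f x + g x) u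
          = curvatureFunction f u + curvatureFunction g u) →
      (∃ a : EuclideanSpace ℝ (Fin 3), ∀ x, f x = inner ℝ a x) ∧
      (∃ a : EuclideanSpace ℝ (Fin 3), ∀ x, g x = inner ℝ a x)) ∧
    (∀ f g : EuclideanSpace ℝ (Fin 3) → ℝ, IsSupp f → IsSupp g →
      ∀ (α β γ : ℝ) (ρ : EuclideanSpace ℝ (Fin 3) → ℝ),
      (∀ u ∈ Metric.sphere (0 : EuclideanSpace ℝ (Fin 3)) 1,
        curvatureFunction f u = α * ρ u ∧ curvatureFunction g u = β * ρ u ∧
        curvatureFunction (fun x => f x + g x) u - curvatureFunction f u - curvatureFunction g u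
          = 2 * γ * ρ u) →
      ∃ s t : ℝ, (s ≠ 0 ∨ t ≠ 0) ∧
        ∃ a : EuclideanSpace ℝ (Fin 3), ∀ x, s * f x + t * g x = inner ℝ a x) :=
  ⟨all_THA, all_PEN⟩

end Pool.Agent.Results.MP_7dc3d9_gt.NullHedgehogs
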