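import Pool.Agent.Lib.MP_7dc3d9_gt.Rep

set_option autoImplicit false
set_option linter.unusedSimpArgs false

open MvPolynomial

namespace Pool.Agent.Results.MP_7dc3d9_gt.PolynomialUniqueness

/-- Entry `(i, j)` of the Hessian of `f` at `u`. -/
noncomputable def hessEntry (f : EuclideanSpace ℝ (Fin 3) → ℝ) (u : EuclideanSpace ℝ (Fin 3))
    (i j : Fin 3) : ℝ :=
  fderiv ℝ (fderiv ℝ f) u (EuclideanSpace.single i (1 : ℝ)) (EuclideanSpace.single j (1 : ℝ))

/-- The curvature function of the hedgehog with (1-homogeneous) support function `f`: the sum of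
the principal `2 × 2` minors of the Hessian of `f` at the unit vector `u`. As `u` is in the kernel
of the Hessian, this is the determinant of the Hessian restricted to the tangent plane at `u`. -/
noncomputable def curvatureFunction (f : EuclideanSpace ℝ (Fin 3) → ℝ)
    (u : EuclideanSpace ℝ (Fin 3)) : ℝ :=
  (hessEntry f u 0 0 * hessEntry f u 1 1 - hessEntry f u 0 1 * hessEntry f u 1 0)
    + (hessEntry f u 0 0 * hessEntry f u 2 2 - hessEntry f u 0 2 * hessEntry f u 2 0)
    + (hessEntry f u 1 1 * hessEntry f u 2 2 - hessEntry f u 1 2 * hessEntry f u 2 1)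

/-- The hedgehog with (1-homogeneous) support function `f`: the image of the unit sphere under
the gradient of `f`. -/
noncomputable def hedgehog (f : EuclideanSpace ℝ (Fin 3) → ℝ) :
    Set (EuclideanSpace ℝ (Fin 3)) :=
  (fun u => gradient f u) '' Metric.sphere (0 : EuclideanSpace ℝ (Fin 3)) 1

open Pool.Agent.Lib.MP_7dc3d9_gt

/-- the 1-homogeneous extension of a polynomial restricted to the sphere -/
private noncomputable def ext (U : MvPolynomial (Fin 3) ℝ) : EuclideanSpace ℝ (Fin 3) → ℝ :=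
  fun z => ‖z‖ * eval (fun i => (‖z‖⁻¹ • z) i) U

private lemma sph_of_norm (u : EuclideanSpace ℝ (Fin 3)) (hu : ‖u‖ = 1) :
    (u 0) ^ 2 + (u 1) ^ 2 + (u 2) ^ 2 = 1 := by
  have := EuclideanSpace.real_norm_sq_eq u
  rw [hu, Fin.sum_univ_three] at this
  linarith

private lemma norm_of_sph (u : Fin 3 → ℝ) (hu : (u 0) ^ 2 + (u 1) ^ 2 + (u 2) ^ 2 = 1) :
    ‖(WithLp.toLp 2 u : EuclideanSpace ℝ (Fin 3))‖ = 1 := by
  have h := EuclideanSpace.real_norm_sq_eq (WithLp.toLp 2 u : EuclideanSpace ℝ (Fin 3))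
  rw [Fin.sum_univ_three] at h
  have h2 : ‖(WithLp.toLp 2 u : EuclideanSpace ℝ (Fin 3))‖ ^ 2 = 1 := by
    rw [h]; simpa using hu
  nlinarith [norm_nonneg (WithLp.toLp 2 u : EuclideanSpace ℝ (Fin 3))]

private lemma eq_ext (f : EuclideanSpace ℝ (Fin 3) → ℝ) (P : MvPolynomial (Fin 3) ℝ)
    (hf : ∀ (x : EuclideanSpace ℝ (Fin 3)) (c : ℝ), 0 < c → f (c • x) = c * f x)
    (hP : ∀ u ∈ Metric.sphere (0 : EuclideanSpace ℝ (Fin 3)) 1,
      f u = eval (fun i => u i) P) : f = ext P := by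
  funext z
  by_cases hz : z = 0
  · have h2 := hf 0 2 (by norm_num)
    rw [smul_zero] at h2
    rw [hz]
    simp only [ext, norm_zero, zero_mul]
    linarith
  · have hn : 0 < ‖z‖ := norm_pos_iff.mpr hz
    have h1 : z = ‖z‖ • (‖z‖⁻¹ • z) := by
      rw [smul_smul, mul_inv_cancel₀ hn.ne', one_smul]
    have h2 : ‖z‖⁻¹ • z ∈ Metric.sphere (0 : EuclideanSpace ℝ (Fin 3)) 1 := by
      rw [mem_sphere_zero_iff_norm, norm_smul, norm_inv, norm_norm, inv_mul_cancel₀ hn.ne']
    calc f z = f (‖z‖ • (‖z‖⁻¹ • z)) := by rw [← h1]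
      _ = ‖z‖ * f (‖z‖⁻¹ • z) := hf _ _ hn
      _ = ext P z := by rw [hP _ h2]; rfl

private lemma hess_ext (P : MvPolynomial (Fin 3) ℝ) (u : EuclideanSpace ℝ (Fin 3))
    (hu : ‖u‖ = 1) (i j : Fin 3) :
    hessEntry (ext P) u i j = eval (fun i => u i) (Tn i (Gr j P)) :=
  fderiv_fderiv_hom P u hu i j

/-- The Hessian only depends on the values on the sphere. -/
private lemma TG_congr (U T : MvPolynomial (Fin 3) ℝ)
    (h : ∀ u : Fin 3 → ℝ, u 0 ^ 2 + u 1 ^ 2 + u 2 ^ 2 = 1 → eval u U = eval u T)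
    (u : Fin 3 → ℝ) (hu : u 0 ^ 2 + u 1 ^ 2 + u 2 ^ 2 = 1) (i j : Fin 3) :
    eval u (Tn i (Gr j U)) = eval u (Tn i (Gr j T)) := by
  have he : ext U = ext T := by
    refine eq_ext (ext U) T ?_ ?_
    · intro x c hc
      simp only [ext, norm_smul, Real.norm_eq_abs, abs_of_pos hc]
      have : (c * ‖x‖)⁻¹ • (c • x) = ‖x‖⁻¹ • x := by
        rw [smul_smul]; congr 1; field_simp
      rw [this]; ring
    · intro v hv
      rw [mem_sphere_zero_iff_norm] at hv
      simp only [ext, hv, inv_one, one_smul, one_mul]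
      exact h _ (sph_of_norm v hv)
  have h1 := hess_ext U (WithLp.toLp 2 u) (norm_of_sph u hu) i j
  have h2 := hess_ext T (WithLp.toLp 2 u) (norm_of_sph u hu) i j
  rw [he, h2] at h1
  exact h1.symm

private lemma TG_add (i j : Fin 3) (U V : MvPolynomial (Fin 3) ℝ) :
    Tn i (Gr j (U + V)) = Tn i (Gr j U) + Tn i (Gr j V) := by
  have h1 : Gr j (U + V) = Gr j U + Gr j V := by
    simp only [Gr, Eul_add, map_add]; ring
  rw [h1]; simp only [Tn, Eul_add, map_add]; ring

private lemma TG_sub (i j : Fin 3) (U V : MvPolynomial (Fin 3) ℝ) :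
    Tn i (Gr j (U - V)) = Tn i (Gr j U) - Tn i (Gr j V) := by
  have h1 : Gr j (U - V) = Gr j U - Gr j V := by
    simp only [Gr, Eul_sub, map_sub]; ring
  rw [h1]; simp only [Tn, Eul_sub, map_sub]; ring

private lemma TG_lin (i j k : Fin 3) (c : ℝ) : Tn i (Gr j (C c * X k)) = 0 := by
  have h1 : Gr j (C c * X k) = C (if j = k then c else 0) := by
    simp only [Gr, Eul_mul, Eul_C, Eul_X, pderiv_C_mul, pderiv_X]
    by_cases h : j = k
    · subst h; simp
    · have : (Pi.single k 1 : Fin 3 → MvPolynomial (Fin 3) ℝ) j = 0 := by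
        simp [Pi.single_apply, h]
      simp [h, this, Pi.single_apply]
  rw [h1]
  simp [Tn, Eul_C]

private lemma TG_rep (U T : MvPolynomial (Fin 3) ℝ) (a : Fin 3 → ℝ)
    (h : ∀ u : Fin 3 → ℝ, u 0 ^ 2 + u 1 ^ 2 + u 2 ^ 2 = 1 →
      eval u U = eval u T + (a 0 * u 0 + a 1 * u 1 + a 2 * u 2))
    (u : Fin 3 → ℝ) (hu : u 0 ^ 2 + u 1 ^ 2 + u 2 ^ 2 = 1) (i j : Fin 3) :
    eval u (Tn i (Gr j T)) = eval u (Tn i (Gr j U)) := by
  have h1 := TG_congr U (T + C (a 0) * X 0 + C (a 1) * X 1 + C (a 2) * X 2)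
    (fun v hv => by rw [h v hv]; simp; ring) u hu i j
  rw [h1, TG_add, TG_add, TG_add, TG_lin, TG_lin, TG_lin]
  simp

private lemma dichotomy (P Q : MvPolynomial (Fin 3) ℝ)
    (hR : ∀ u ∈ Metric.sphere (0 : EuclideanSpace ℝ (Fin 3)) 1,
      curvatureFunction (ext P) u = curvatureFunction (ext Q) u) :
    SphLin (P - Q) ∨ SphLin (P + Q) := by
  by_contra hcon
  push Not at hcon
  obtain ⟨M, T, a, hM, hT, hTr, hTa⟩ := exists_rep _ hcon.1
  obtain ⟨N, S, b, hN, hS, hSr, hSb⟩ := exists_rep _ hcon.2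
  refine alg_main T S M N hM hN hT hS hTr hSr fun u hu => ?_
  have hnorm := norm_of_sph u hu
  have h1 := hR (WithLp.toLp 2 u) (by rw [mem_sphere_zero_iff_norm]; exact hnorm)
  simp only [curvatureFunction] at h1
  simp only [hess_ext P _ hnorm, hess_ext Q _ hnorm] at h1
  simp only [BB, map_add, map_sub, map_mul]
  simp only [TG_rep _ T a hTa u hu, TG_rep _ S b hSb u hu, TG_add, TG_sub, map_add, map_sub]
  linear_combination 2 * h1

private lemma lin_of_sphLin (F : EuclideanSpace ℝ (Fin 3) → ℝ) (U : MvPolynomial (Fin 3) ℝ)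
    (hF : ∀ (x : EuclideanSpace ℝ (Fin 3)) (c : ℝ), 0 < c → F (c • x) = c * F x)
    (hU : ∀ u ∈ Metric.sphere (0 : EuclideanSpace ℝ (Fin 3)) 1, F u = eval (fun i => u i) U)
    (hL : SphLin U) : ∃ a : EuclideanSpace ℝ (Fin 3), ∀ x, F x = inner ℝ a x := by
  obtain ⟨a, ha⟩ := hL
  refine ⟨WithLp.toLp 2 a, fun x => ?_⟩
  have h1 := eq_ext F (C (a 0) * X 0 + C (a 1) * X 1 + C (a 2) * X 2) hF (fun u hu => by
    rw [hU u hu, ha _ (sph_of_norm u (by rwa [mem_sphere_zero_iff_norm] at hu))]; simp)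
  have h2 := eq_ext (fun x => inner ℝ (WithLp.toLp 2 a : EuclideanSpace ℝ (Fin 3)) x)
    (C (a 0) * X 0 + C (a 1) * X 1 + C (a 2) * X 2)
    (fun x c _ => by simp [inner_smul_right]) (fun u hu => by
      simp [PiLp.inner_apply, Fin.sum_univ_three]; ring)
  rw [h1]
  exact (congrFun h2 x).symm

private lemma grad_add (g : EuclideanSpace ℝ (Fin 3) → ℝ) (a u : EuclideanSpace ℝ (Fin 3))
    (hg : DifferentiableAt ℝ g u) (s : ℝ) :
    gradient (fun x => s * g x + inner ℝ a x) u = s • gradient g u + a := by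
  have h1 : HasFDerivAt (fun x => s * g x + inner ℝ a x) (s • fderiv ℝ g u + innerSL ℝ a) u :=
    (hg.hasFDerivAt.const_mul s).fun_add (innerSL ℝ a).hasFDerivAt
  simp only [gradient]
  rw [h1.fderiv, map_add, map_smul]
  congr 1
  exact (InnerProductSpace.toDual ℝ (EuclideanSpace ℝ (Fin 3))).symm_apply_apply a

/-- **Main theorem.** Two hedgehogs of `ℝ³` whose support functions are restrictions of
polynomials to the sphere and whose curvature functions agree are congruent; more precisely the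
support functions are equal up to sign and up to adding a linear form. -/
theorem result (f g : EuclideanSpace ℝ (Fin 3) → ℝ) (P Q : MvPolynomial (Fin 3) ℝ)
    (hf : ∀ (x : EuclideanSpace ℝ (Fin 3)) (c : ℝ), 0 < c → f (c • x) = c * f x)
    (hg : ∀ (x : EuclideanSpace ℝ (Fin 3)) (c : ℝ), 0 < c → g (c • x) = c * g x)
    (hP : ∀ u ∈ Metric.sphere (0 : EuclideanSpace ℝ (Fin 3)) 1, f u = eval (fun i => u i) P)
    (hQ : ∀ u ∈ Metric.sphere (0 : EuclideanSpace ℝ (Fin 3)) 1, g u = eval (fun i => u i) Q)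
    (hR : ∀ u ∈ Metric.sphere (0 : EuclideanSpace ℝ (Fin 3)) 1,
      curvatureFunction f u = curvatureFunction g u) :
    ((∃ a : EuclideanSpace ℝ (Fin 3), ∀ x, f x = g x + inner ℝ a x) ∨
      (∃ a : EuclideanSpace ℝ (Fin 3), ∀ x, f x = - g x + inner ℝ a x)) ∧
    ∃ Φ : EuclideanSpace ℝ (Fin 3) ≃ᵢ EuclideanSpace ℝ (Fin 3),
      Φ '' hedgehog g = hedgehog f := by
  have hfe := eq_ext f P hf hP
  have hge := eq_ext g Q hg hQ
  have hdiff : ∀ u ∈ Metric.sphere (0 : EuclideanSpace ℝ (Fin 3)) 1, DifferentiableAt ℝ g u := by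
    intro u hu
    have hu0 : u ≠ 0 := by
      intro h; rw [h] at hu; simp at hu
    rw [hge]
    exact (hasFDerivAt_hom Q u hu0).differentiableAt
  rw [hfe, hge] at hR
  rcases dichotomy P Q hR with h | h
  · obtain ⟨a, ha⟩ := lin_of_sphLin (fun x => f x - g x) (P - Q)
      (fun x c hc => by rw [hf x c hc, hg x c hc]; ring)
      (fun u hu => by rw [hP u hu, hQ u hu, map_sub]) h
    have hfg : ∀ x, f x = g x + inner ℝ a x := fun x => by have := ha x; linarith
    refine ⟨Or.inl ⟨a, hfg⟩, IsometryEquiv.addRight a, ?_⟩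
    have hgrad : ∀ u ∈ Metric.sphere (0 : EuclideanSpace ℝ (Fin 3)) 1,
        gradient f u = gradient g u + a := by
      intro u hu
      have e : f = fun x => 1 * g x + inner ℝ a x := by funext x; rw [hfg x, one_mul]
      rw [e, grad_add g a u (hdiff u hu) 1, one_smul]
    simp only [hedgehog]
    rw [Set.image_image]
    exact Set.image_congr fun u hu => by rw [hgrad u hu]; rfl
  · obtain ⟨a, ha⟩ := lin_of_sphLin (fun x => f x + g x) (P + Q)
      (fun x c hc => by rw [hf x c hc, hg x c hc]; ring)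
      (fun u hu => by rw [hP u hu, hQ u hu, map_add]) h
    have hfg : ∀ x, f x = - g x + inner ℝ a x := fun x => by have := ha x; linarith
    refine ⟨Or.inr ⟨a, hfg⟩, (IsometryEquiv.neg _).trans (IsometryEquiv.addRight a), ?_⟩
    have hgrad : ∀ u ∈ Metric.sphere (0 : EuclideanSpace ℝ (Fin 3)) 1,
        gradient f u = - gradient g u + a := by
      intro u hu
      have e : f = fun x => (-1) * g x + inner ℝ a x := by funext x; rw [hfg x]; ring
      rw [e, grad_add g a u (hdiff u hu) (-1), neg_one_smul]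
    simp only [hedgehog]
    rw [Set.image_image]
    exact Set.image_congr fun u hu => by rw [hgrad u hu]; rfl

end Pool.Agent.Results.MP_7dc3d9_gt.PolynomialUniqueness
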