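import Pool.Agent.Lib.MP_7dc3d9_gt.Revol3

set_option autoImplicit false

/-!
# MP_7dc3d9_gt: curvature preserving families of hedgehogs of revolution

Definitions (`Pool.Agent.Lib.MP_7dc3d9_gt.ThA.Defs`): `IsSupp f`: `f` is positively 1-homogeneous
on `ℝ³` and `C²` outside the origin; `curvatureFunction f u`: sum of the principal `2 × 2` minors
of the Hessian of `f` at `u`; `hedgehog f`: image of the unit sphere under the gradient of `f`.
`AxiA a f` (`Pool.Agent.Lib.MP_7dc3d9_gt.Revol2`): `f x = f y` whenever `⟨a, x⟩ = ⟨a, y⟩` and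
`‖x‖ = ‖y‖`, i.e. `f` is symmetric under the rotations about the axis `ℝ a`.
-/

namespace Pool.Agent.Results.MP_7dc3d9_gt.Revolution

open Pool.Agent.HH Pool.Agent.HH.Rev Set

/-- A family of hedgehogs of revolution (the axis may depend on `t`) with the same curvature
function, whose first derivatives are continuous in `t`, is constant up to translations. -/
theorem result :
    ∀ (a : ℝ → EuclideanSpace ℝ (Fin 3)) (H : ℝ → EuclideanSpace ℝ (Fin 3) → ℝ),
      (∀ t ∈ Icc (0 : ℝ) 1, IsSupp (H t)) →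
      (∀ t ∈ Icc (0 : ℝ) 1, ‖a t‖ = 1 ∧ AxiA (a t) (H t)) →
      (∀ x : EuclideanSpace ℝ (Fin 3), x ≠ 0 →
        ContinuousOn (fun t => fderiv ℝ (H t) x) (Icc 0 1)) →
      (∀ t ∈ Icc (0 : ℝ) 1, ∀ u ∈ Metric.sphere (0 : EuclideanSpace ℝ (Fin 3)) 1,
        curvatureFunction (H t) u = curvatureFunction (H 0) u) →
      ∀ t ∈ Icc (0 : ℝ) 1,
        (∃ v : EuclideanSpace ℝ (Fin 3), ∀ x, H t x = H 0 x + inner ℝ v x) ∧
        ∃ Φ : EuclideanSpace ℝ (Fin 3) ≃ᵢ EuclideanSpace ℝ (Fin 3),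
          Φ '' hedgehog (H 0) = hedgehog (H t) := by
  intro a H hH ha hc hR t ht
  obtain ⟨v, hv⟩ := fam_axes H a hH (fun t ht => (ha t ht).1) (fun t ht => (ha t ht).2) hc hR t ht
  exact ⟨⟨v, hv⟩, congr_of_lin (hH 0 ⟨le_refl _, zero_le_one⟩) v hv⟩

end Pool.Agent.Results.MP_7dc3d9_gt.Revolution
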